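import Mathlib

/-!
# The `Z`-versions of the compact-open, Isbell and strong Isbell topologies can be strictly finer

One pair of spaces, with `Z` the discrete two-point space, answers all three parts.
-/

namespace Pool.Agent.Results.MP_43be50_gt.AllThree

open Set Topology TopologicalSpace

section Definitions

variable (Y Z : Type*) [TopologicalSpace Y] [TopologicalSpace Z]

/-- `𝒪_Z(Y)`: the preimages of open subsets of `Z` under continuous maps. -/
def OZ : Set (Set Y) := {W | ∃ (f : C(Y, Z)) (U : Set Z), IsOpen U ∧ W = f ⁻¹' U}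

/-- `Z`-compact subsets of `Y`: those compact in the topology generated by `𝒪_Z(Y)`. -/
def ZCompact (K : Set Y) : Prop := @IsCompact Y (generateFrom (OZ Y Z)) K

variable {Y Z}

/-- `(K, U)`. -/
def maps (K : Set Y) (U : Set Z) : Set C(Y, Z) := {f | f '' K ⊆ U}

/-- `(ℍ, U)`. -/
def pre (ℍ : Set (Set Y)) (U : Set Z) : Set C(Y, Z) := {f | f ⁻¹' U ∈ ℍ}

variable (Y) in
/-- `ℍ` is open in the Scott topology `Ω(Y)` on the family of open sets. -/
def ScottOpen (ℍ : Set (Set Y)) : Prop :=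
  (∀ W ∈ ℍ, IsOpen W) ∧ (∀ W ∈ ℍ, ∀ V, IsOpen V → W ⊆ V → V ∈ ℍ) ∧
    ∀ 𝒲 : Set (Set Y), (∀ W ∈ 𝒲, IsOpen W) → ⋃₀ 𝒲 ∈ ℍ → ∃ ℱ ⊆ 𝒲, ℱ.Finite ∧ ⋃₀ ℱ ∈ ℍ

variable (Y) in
/-- `ℍ` is open in the strong Scott topology `Ω₁(Y)`. -/
def StrongScottOpen (ℍ : Set (Set Y)) : Prop :=
  (∀ W ∈ ℍ, IsOpen W) ∧ (∀ W ∈ ℍ, ∀ V, IsOpen V → W ⊆ V → V ∈ ℍ) ∧
    ∀ 𝒲 : Set (Set Y), (∀ W ∈ 𝒲, IsOpen W) → ⋃₀ 𝒲 = univ → ∃ ℱ ⊆ 𝒲, ℱ.Finite ∧ ⋃₀ ℱ ∈ ℍ

variable (Y Z) in
/-- `ℍ` is open in the topology `τ₁^Z`. -/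
def ZScottOpen (ℍ : Set (Set Y)) : Prop :=
  (∀ W ∈ ℍ, IsOpen W) ∧ (∀ W ∈ ℍ, W ∈ OZ Y Z → ∀ V, IsOpen V → W ⊆ V → V ∈ ℍ) ∧
    ∀ 𝒲 ⊆ OZ Y Z, ⋃₀ 𝒲 ∈ ℍ → ∃ ℱ ⊆ 𝒲, ℱ.Finite ∧ ⋃₀ ℱ ∈ ℍ

variable (Y Z) in
/-- `ℍ` is open in the topology `τ_{1,s}^Z`. -/
def StrongZScottOpen (ℍ : Set (Set Y)) : Prop :=
  (∀ W ∈ ℍ, IsOpen W) ∧ (∀ W ∈ ℍ, W ∈ OZ Y Z → ∀ V, IsOpen V → W ⊆ V → V ∈ ℍ) ∧
    ∀ 𝒲 ⊆ OZ Y Z, ⋃₀ 𝒲 = univ → ∃ ℱ ⊆ 𝒲, ℱ.Finite ∧ ⋃₀ ℱ ∈ ℍ

variable (Y Z)

/-- The compact-open topology. -/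
abbrev tco : TopologicalSpace C(Y, Z) :=
  generateFrom {S | ∃ K U, IsCompact K ∧ IsOpen U ∧ S = maps K U}

/-- The topology `t_co^Z`. -/
abbrev tcoZ : TopologicalSpace C(Y, Z) :=
  generateFrom {S | ∃ K U, ZCompact Y Z K ∧ IsOpen U ∧ S = maps K U}

/-- The Isbell topology. -/
abbrev tIs : TopologicalSpace C(Y, Z) :=
  generateFrom {S | ∃ ℍ U, ScottOpen Y ℍ ∧ IsOpen U ∧ S = pre ℍ U}

/-- The strong Isbell topology. -/
abbrev tsIs : TopologicalSpace C(Y, Z) :=
  generateFrom {S | ∃ ℍ U, StrongScottOpen Y ℍ ∧ IsOpen U ∧ S = pre ℍ U}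

/-- The topology `t₁^Z`. -/
abbrev t1Z : TopologicalSpace C(Y, Z) :=
  generateFrom {S | ∃ ℍ U, ZScottOpen Y Z ℍ ∧ IsOpen U ∧ S = pre ℍ U}

/-- The topology `t_{1,s}^Z`. -/
abbrev t1sZ : TopologicalSpace C(Y, Z) :=
  generateFrom {S | ∃ ℍ U, StrongZScottOpen Y Z ℍ ∧ IsOpen U ∧ S = pre ℍ U}

end Definitions

/-! ### The space `Y` -/

/-- The isolated points: a union of finite columns of unbounded size. -/
abbrev D : Type := Σ n : ℕ, Fin (n + 1)

/-- The functions choosing one point from each column. -/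
abbrev T : Type := (n : ℕ) → Fin (n + 1)

/-- The space `Y = D ∪ T ∪ {*}`. -/
def YY : Type := D ⊕ T ⊕ Unit

/-- The points of the three kinds. -/
def YY.d (x : D) : YY := Sum.inl x
def YY.f (f : T) : YY := Sum.inr (Sum.inl f)
def YY.star : YY := Sum.inr (Sum.inr ())

/-- The points of `D` and the point `*` are isolated; a neighbourhood of a function `f` contains `*`
and almost all the points of its graph. -/
instance : TopologicalSpace YY where
  IsOpen G := ∀ f : T, YY.f f ∈ G → YY.star ∈ G ∧ ∃ k, ∀ n ≥ k, YY.d ⟨n, f n⟩ ∈ G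
  isOpen_univ := fun f _ => ⟨mem_univ _, 0, fun _ _ => mem_univ _⟩
  isOpen_inter := by
    intro G H hG hH f hf
    obtain ⟨h1, k, hk⟩ := hG f hf.1
    obtain ⟨h2, l, hl⟩ := hH f hf.2
    exact ⟨⟨h1, h2⟩, max k l, fun n hn =>
      ⟨hk n (le_trans (le_max_left _ _) hn), hl n (le_trans (le_max_right _ _) hn)⟩⟩
  isOpen_sUnion := by
    rintro 𝒢 h f ⟨G, hG, hf⟩
    obtain ⟨h1, k, hk⟩ := h G hG f hf
    exact ⟨⟨G, hG, h1⟩, k, fun n hn => ⟨G, hG, hk n hn⟩⟩

instance : Nonempty YY := ⟨YY.star⟩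

lemma isOpen_def {G : Set YY} :
    IsOpen G ↔ ∀ f : T, YY.f f ∈ G → YY.star ∈ G ∧ ∃ k, ∀ n ≥ k, YY.d ⟨n, f n⟩ ∈ G := Iff.rfl

/-- Basic neighbourhoods. -/
def N : YY → Set YY
  | Sum.inl x => {YY.d x}
  | Sum.inr (Sum.inl f) => {y | y = YY.f f ∨ y = YY.star ∨ ∃ n, y = YY.d ⟨n, f n⟩}
  | Sum.inr (Sum.inr _) => {YY.star}

lemma mem_N (y : YY) : y ∈ N y := by
  rcases y with x | f | u
  · exact rfl
  · exact Or.inl rfl
  · exact rfl

lemma isOpen_N (y : YY) : IsOpen (N y) := by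
  rw [isOpen_def]
  intro g hg
  rcases y with x | f | u
  · exact absurd hg (by intro h; cases h)
  · rcases hg with h | h | ⟨n, h⟩
    · have hgf : g = f := Sum.inl.inj (Sum.inr.inj h)
      subst hgf
      exact ⟨Or.inr (Or.inl rfl), 0, fun n _ => Or.inr (Or.inr ⟨n, rfl⟩)⟩
    · cases h
    · cases h
  · exact absurd hg (by intro h; cases h)

/-- Finitely many basic neighbourhoods do not cover `D`. -/
lemma exists_avoid (t : Finset YY) : ∃ x : D, ∀ y ∈ t, YY.d x ∉ N y := by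
  classical
  -- a column which is large and contains none of the isolated points of `t`
  let m : YY → ℕ := fun y => match y with
    | Sum.inl x => x.1
    | Sum.inr _ => 0
  let n : ℕ := t.card + t.sup m + 1
  let v : YY → Fin (n + 1) := fun y => match y with
    | Sum.inl _ => 0
    | Sum.inr (Sum.inl f) => f n
    | Sum.inr (Sum.inr _) => 0
  have hcard : (t.image v).card < Fintype.card (Fin (n + 1)) := by
    rw [Fintype.card_fin]
    exact lt_of_le_of_lt Finset.card_image_le (by omega)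
  obtain ⟨i, hi⟩ : ∃ i, i ∉ t.image v := by
    by_contra hc
    push Not at hc
    have : t.image v = Finset.univ := Finset.eq_univ_iff_forall.2 hc
    rw [this, Finset.card_univ] at hcard
    exact lt_irrefl _ hcard
  refine ⟨⟨n, i⟩, fun y hy hN => ?_⟩
  rcases y with x | f | u
  · have h1 : (⟨n, i⟩ : D) = x := Sum.inl.inj hN
    have h2 : m (Sum.inl x) ≤ t.sup m := Finset.le_sup hy
    have h3 : m (Sum.inl x) = n := by
      show x.1 = n
      rw [← h1]
    omega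
  · rcases hN with h | h | ⟨k, h⟩
    · cases h
    · cases h
    · have h1 : (⟨n, i⟩ : D) = ⟨k, f k⟩ := Sum.inl.inj h
      obtain ⟨rfl, h2⟩ := Sigma.mk.inj_iff.1 h1
      apply hi
      rw [eq_of_heq h2]
      exact Finset.mem_image.2 ⟨_, hy, rfl⟩
  · cases hN

/-- A clopen set which contains `*` contains all the functions and all but finitely many points
of `D`. -/
lemma clopen_cofinite {A : Set YY} (h1 : IsOpen A) (h2 : IsOpen Aᶜ) (hs : YY.star ∈ A) :
    (∀ f, YY.f f ∈ A) ∧ {x : D | YY.d x ∉ A}.Finite := by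
  have hf : ∀ f, YY.f f ∈ A := by
    intro f
    by_contra hc
    exact (isOpen_def.1 h2 f hc).1 hs
  refine ⟨hf, ?_⟩
  by_contra hinf
  have hcol : {n : ℕ | ∃ i, YY.d ⟨n, i⟩ ∉ A}.Infinite := by
    intro hfin
    apply hinf
    refine (hfin.biUnion (t := fun n => range fun i : Fin (n + 1) => (⟨n, i⟩ : D))
      fun n _ => finite_range _).subset ?_
    rintro ⟨n, i⟩ hx
    exact mem_iUnion₂.2 ⟨n, ⟨i, hx⟩, i, rfl⟩
  classical
  let f : T := fun n => if h : ∃ i, YY.d ⟨n, i⟩ ∉ A then h.choose else 0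
  obtain ⟨-, k, hk⟩ := isOpen_def.1 h1 f (hf f)
  obtain ⟨n, hn, hkn⟩ := hcol.exists_gt k
  have h3 := hk n hkn.le
  have hn' : ∃ i, YY.d ⟨n, i⟩ ∉ A := hn
  have h4 : f n = hn'.choose := dif_pos hn'
  rw [h4] at h3
  exact hn'.choose_spec h3

lemma OZ_clopen {W : Set YY} (h : W ∈ OZ YY Bool) : IsOpen W ∧ IsOpen Wᶜ := by
  obtain ⟨f, U, hU, rfl⟩ := h
  exact ⟨hU.preimage f.continuous,
    (isClosed_discrete U).isOpen_compl.preimage f.continuous⟩

/-- Covers by members of `𝒪_Z(Y)` have finite subcovers. -/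
lemma finite_subcover {𝒲 : Set (Set YY)} (h : 𝒲 ⊆ OZ YY Bool) (hc : ⋃₀ 𝒲 = univ) :
    ∃ ℱ ⊆ 𝒲, ℱ.Finite ∧ ⋃₀ ℱ = univ := by
  obtain ⟨A, hA, hs⟩ : ∃ A ∈ 𝒲, YY.star ∈ A := by
    have : YY.star ∈ ⋃₀ 𝒲 := by rw [hc]; trivial
    exact this
  obtain ⟨h1, h2⟩ := clopen_cofinite (OZ_clopen (h hA)).1 (OZ_clopen (h hA)).2 hs
  have h3 : ∀ x : D, ∃ B ∈ 𝒲, YY.d x ∈ B := by
    intro x
    have : YY.d x ∈ ⋃₀ 𝒲 := by rw [hc]; trivial
    exact this
  choose B hB hxB using h3
  refine ⟨insert A (B '' {x : D | YY.d x ∉ A}), ?_, (h2.image B).insert A, ?_⟩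
  · rintro W (rfl | ⟨x, -, rfl⟩)
    · exact hA
    · exact hB x
  · apply eq_univ_of_forall
    rintro (x | f | u)
    · by_cases hx : YY.d x ∈ A
      · exact ⟨A, mem_insert _ _, hx⟩
      · exact ⟨B x, mem_insert_of_mem _ ⟨x, hx, rfl⟩, hxB x⟩
    · exact ⟨A, mem_insert _ _, h1 f⟩
    · exact ⟨A, mem_insert _ _, hs⟩

lemma zcompact_univ : ZCompact YY Bool univ := by
  refine @isCompact_generateFrom YY (generateFrom (OZ YY Bool)) (OZ YY Bool) rfl univ ?_
  intro P hP hcov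
  obtain ⟨ℱ, h1, h2, h3⟩ := finite_subcover hP (univ_subset_iff.1 hcov)
  exact ⟨ℱ, h1, h2, h3.ge⟩

/-! ### The constant function -/

/-- The constant function with value `true`. -/
def one : C(YY, Bool) := ContinuousMap.const YY true

/-- The function which is `false` only at the isolated point `x`. -/
noncomputable def ind (x : D) : C(YY, Bool) where
  toFun y := by classical exact decide (y ≠ YY.d x)
  continuous_toFun := by
    classical
    rw [continuous_discrete_rng]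
    intro b
    cases b
    · have : (fun y : YY => decide (y ≠ YY.d x)) ⁻¹' {false} = N (YY.d x) := by
        ext y
        simp only [mem_preimage, mem_singleton_iff, decide_eq_false_iff_not, ne_eq, not_not]
        exact Iff.rfl
      rw [this]
      exact isOpen_N _
    · have : (fun y : YY => decide (y ≠ YY.d x)) ⁻¹' {true} = {YY.d x}ᶜ := by
        ext y
        simp
      rw [this, isOpen_def]
      intro f _
      refine ⟨?_, x.1 + 1, fun n hn => ?_⟩
      · intro h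
        cases h
      · intro h
        have h1 : (⟨n, f n⟩ : D) = x := Sum.inl.inj h
        have h2 : n = x.1 := congrArg Sigma.fst h1
        omega

lemma ind_apply (x : D) (y : YY) : ind x y = true ↔ y ≠ YY.d x := by
  simp [ind]

lemma ind_ne (x : D) : ind x ≠ one := by
  intro h
  have := (ind_apply x (YY.d x)).1 (by rw [h]; rfl)
  exact this rfl

/-- The property of sets of functions which shows that `{one}` is not open in the classical
topologies. -/
def Large (S : Set C(YY, Bool)) : Prop :=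
  one ∈ S → ∃ t : Finset YY, ∀ x : D, (∀ y ∈ t, YY.d x ∉ N y) → ind x ∈ S

lemma large_of_generateFrom {𝒮 : Set (Set C(YY, Bool))} (h : ∀ S ∈ 𝒮, Large S)
    {S : Set C(YY, Bool)} (hS : @IsOpen _ (generateFrom 𝒮) S) : Large S := by
  classical
  induction hS with
  | basic s hs => exact h s hs
  | univ => exact fun _ => ⟨∅, fun x _ => mem_univ _⟩
  | inter s t _ _ ihs iht =>
    intro h1
    obtain ⟨a, ha⟩ := ihs h1.1
    obtain ⟨b, hb⟩ := iht h1.2
    exact ⟨a ∪ b, fun x hx => ⟨ha x fun y hy => hx y (Finset.mem_union_left _ hy),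
      hb x fun y hy => hx y (Finset.mem_union_right _ hy)⟩⟩
  | sUnion 𝒯 _ ih =>
    rintro ⟨s, hs, h1⟩
    obtain ⟨a, ha⟩ := ih s hs h1
    exact ⟨a, fun x hx => ⟨s, hs, ha x hx⟩⟩

lemma not_large : ¬ Large {one} := by
  intro h
  obtain ⟨t, ht⟩ := h rfl
  obtain ⟨x, hx⟩ := exists_avoid t
  exact ind_ne x (ht x hx)

lemma not_isOpen {𝒮 : Set (Set C(YY, Bool))} (h : ∀ S ∈ 𝒮, Large S) :
    ¬ @IsOpen _ (generateFrom 𝒮) {one} := fun h1 => not_large (large_of_generateFrom h h1)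

lemma bool_cases (U : Set Bool) : true ∉ U ∨ U = {true} ∨ U = univ := by
  by_cases h1 : true ∈ U
  · by_cases h2 : false ∈ U
    · right; right
      apply eq_univ_of_forall
      intro b
      cases b <;> assumption
    · right; left
      ext b
      cases b <;> simp [h1, h2]
  · exact Or.inl h1

lemma large_maps {K : Set YY} {U : Set Bool} (hK : IsCompact K) : Large (maps K U) := by
  intro h1
  rcases bool_cases U with h | rfl | rfl
  · refine ⟨∅, fun x _ => ?_⟩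
    rintro _ ⟨y, hy, rfl⟩
    exact absurd (h1 ⟨y, hy, rfl⟩) h
  · obtain ⟨t, -, ht⟩ := hK.elim_nhds_subcover N fun y _ => (isOpen_N y).mem_nhds (mem_N y)
    refine ⟨t, fun x hx => ?_⟩
    rintro _ ⟨y, hy, rfl⟩
    rw [mem_singleton_iff, ind_apply]
    rintro rfl
    obtain ⟨z, hz, hyz⟩ := mem_iUnion₂.1 (ht hy)
    exact hx z hz hyz
  · exact ⟨∅, fun x _ => subset_univ _⟩

/-- Common part of the arguments for the Isbell and the strong Isbell topologies. -/
lemma large_pre {ℍ : Set (Set YY)} {U : Set Bool}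
    (hup : ∀ W ∈ ℍ, ∀ V, IsOpen V → W ⊆ V → V ∈ ℍ)
    (hcov : univ ∈ ℍ → ∃ ℱ ⊆ range N, ℱ.Finite ∧ ⋃₀ ℱ ∈ ℍ) : Large (pre ℍ U) := by
  classical
  intro h1
  have hopen : ∀ x : D, IsOpen ((ind x) ⁻¹' U) := fun x =>
    (isOpen_discrete U).preimage (ind x).continuous
  rcases bool_cases U with h | rfl | rfl
  · refine ⟨∅, fun x _ => ?_⟩
    have h2 : (one : C(YY, Bool)) ⁻¹' U = ∅ := by
      ext y
      simp only [mem_preimage, mem_empty_iff_false, iff_false]
      exact h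
    have h3 : (∅ : Set YY) ∈ ℍ := by
      rw [← h2]
      exact h1
    exact hup ∅ h3 _ (hopen x) (empty_subset _)
  · have h2 : (one : C(YY, Bool)) ⁻¹' {true} = univ := by
      ext y
      simp [one]
    have h3 : (univ : Set YY) ∈ ℍ := by
      rw [← h2]
      exact h1
    obtain ⟨ℱ, hℱ, hfin, hmem⟩ := hcov h3
    have h4 : ∀ W ∈ ℱ, ∃ y, N y = W := fun W hW => hℱ hW
    choose! c hc using h4
    refine ⟨hfin.toFinset.image c, fun x hx => hup _ hmem _ (hopen x) ?_⟩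
    rintro y ⟨W, hW, hy⟩
    rw [mem_preimage, mem_singleton_iff, ind_apply]
    rintro rfl
    refine hx (c W) (Finset.mem_image.2 ⟨W, hfin.mem_toFinset.2 hW, rfl⟩) ?_
    rw [hc W hW]
    exact hy
  · refine ⟨∅, fun x _ => ?_⟩
    have h3 : (univ : Set YY) ∈ ℍ := h1
    exact h3

lemma sUnion_N : ⋃₀ (range N) = univ :=
  eq_univ_of_forall fun y => ⟨N y, mem_range_self y, mem_N y⟩

/-- **Theorem.** There are topological spaces `Y` and `Z` such that, on `C(Y, Z)`,
`t_co^Z ≠ t_co`, `t₁^Z ≠ t_Is` and `t_{1,s}^Z ≠ t_sIs`. -/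
theorem result : ∃ (Y Z : Type) (_ : TopologicalSpace Y) (_ : TopologicalSpace Z),
    tcoZ Y Z ≠ tco Y Z ∧ t1Z Y Z ≠ tIs Y Z ∧ t1sZ Y Z ≠ tsIs Y Z := by
  refine ⟨YY, Bool, inferInstance, inferInstance, ?_, ?_, ?_⟩
  · intro h
    have h1 : @IsOpen _ (tcoZ YY Bool) {one} := by
      refine isOpen_generateFrom_of_mem ⟨univ, {true}, zcompact_univ, isOpen_discrete _, ?_⟩
      ext f
      simp only [mem_singleton_iff, maps, image_univ, mem_ofPred_eq]
      constructor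
      · rintro rfl
        rintro _ ⟨y, rfl⟩
        rfl
      · intro hf
        ext y
        have : f y = true := hf ⟨y, rfl⟩
        rw [this]
        rfl
    rw [h] at h1
    refine not_isOpen ?_ h1
    rintro _ ⟨K, U, hK, -, rfl⟩
    exact large_maps hK
  · intro h
    have h1 : @IsOpen _ (t1Z YY Bool) {one} := by
      refine isOpen_generateFrom_of_mem ⟨{univ}, {true}, ⟨?_, ?_, ?_⟩, isOpen_discrete _, ?_⟩
      · rintro W rfl
        exact isOpen_univ
      · rintro W rfl - V - hV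
        exact univ_subset_iff.1 hV
      · intro 𝒲 h𝒲 hu
        exact finite_subcover h𝒲 hu
      · ext f
        simp only [mem_singleton_iff, pre, mem_ofPred_eq]
        constructor
        · rintro rfl
          ext y
          simp [one]
        · intro hf
          ext y
          have : y ∈ f ⁻¹' {true} := by rw [hf]; trivial
          rw [show f y = true from this]
          rfl
    rw [h] at h1
    refine not_isOpen ?_ h1
    rintro _ ⟨ℍ, U, ⟨-, hup, hc⟩, -, rfl⟩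
    refine large_pre hup fun hu => hc (range N) ?_ ?_
    · rintro _ ⟨y, rfl⟩
      exact isOpen_N y
    · rw [sUnion_N]
      exact hu
  · intro h
    have h1 : @IsOpen _ (t1sZ YY Bool) {one} := by
      refine isOpen_generateFrom_of_mem ⟨{univ}, {true}, ⟨?_, ?_, ?_⟩, isOpen_discrete _, ?_⟩
      · rintro W rfl
        exact isOpen_univ
      · rintro W rfl - V - hV
        exact univ_subset_iff.1 hV
      · intro 𝒲 h𝒲 hu
        exact finite_subcover h𝒲 hu
      · ext f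
        simp only [mem_singleton_iff, pre, mem_ofPred_eq]
        constructor
        · rintro rfl
          ext y
          simp [one]
        · intro hf
          ext y
          have : y ∈ f ⁻¹' {true} := by rw [hf]; trivial
          rw [show f y = true from this]
          rfl
    rw [h] at h1
    refine not_isOpen ?_ h1
    rintro _ ⟨ℍ, U, ⟨-, hup, hc⟩, -, rfl⟩
    refine large_pre hup fun _ => hc (range N) ?_ sUnion_N
    rintro _ ⟨y, rfl⟩
    exact isOpen_N y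

end Pool.Agent.Results.MP_43be50_gt.AllThree
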